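import Pool.Agent.Y45.MON.StmG

/-!
# Project MON (helper45), job G11 (helper614): the words are rigid in the quotient
-/

set_option autoImplicit false

namespace Pool.Agent.Y614.MON

open Pool.Agent.TH54.BU Pool.Agent.Y45.MON

/-- the vertices of the broken line with connectors `cs` and exponents `f` -/
def bv {G : Type} [Group G] (x : G) (cs : ℕ → G) (f : ℕ → ℤ) : ℕ → G
  | 0 => 1
  | k + 1 => bv x cs f k * cs k * x ^ f k

theorem bv_zero {G : Type} [Group G] (x : G) (cs : ℕ → G) (f : ℕ → ℤ) : bv x cs f 0 = 1 := rfl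

theorem bv_succ {G : Type} [Group G] (x : G) (cs : ℕ → G) (f : ℕ → ℤ) (k : ℕ) :
    bv x cs f (k + 1) = bv x cs f k * cs k * x ^ f k := rfl

theorem bv_add {G : Type} [Group G] {x : G} {cs : ℕ → G} {f : ℕ → ℤ}
    (hc : ∀ k, cs (k + 4) = cs k) (hf : ∀ k, f (k + 4) = f k) (k : ℕ) :
    bv x cs f (k + 4) = bv x cs f 4 * bv x cs f k := by
  induction k with
  | zero => rw [bv_zero, mul_one, Nat.zero_add]
  | succ k ih =>
    rw [show k + 1 + 4 = k + 4 + 1 by ring, bv_succ x cs f (k + 4), ih, hc, hf,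
      bv_succ x cs f k, mul_assoc, mul_assoc, mul_assoc (bv x cs f k)]

theorem bv_pow {G : Type} [Group G] {x : G} {cs : ℕ → G} {f : ℕ → ℤ}
    (hc : ∀ k, cs (k + 4) = cs k) (hf : ∀ k, f (k + 4) = f k) (N : ℕ) :
    bv x cs f (4 * N) = bv x cs f 4 ^ N := by
  induction N with
  | zero => rw [mul_zero, pow_zero, bv_zero]
  | succ N ih => rw [show 4 * (N + 1) = 4 * N + 4 by ring, bv_add hc hf, ih, pow_succ']

section

variable {G : Type} [Group G] {H : GH G} {c θ T : ℕ} (L : LS H c θ T)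

theorem cst_ge (Θ ρ : ℕ) :
    24 * L.thr + T * (2 * c + 1) + T * Θ + T * (ρ + c) + 1 ≤ cst L Θ ρ := by
  have e1 : T * (2 * c + θ + 1) = 2 * (T * c) + T * θ + T := by ring
  have e2 : T * (2 * c + 1) = 2 * (T * c) + T := by ring
  have e3 : T * (ρ + c) = T * ρ + T * c := by ring
  have e4 : T * (c + θ + Θ + ρ + 1) = T * c + T * θ + T * Θ + T * ρ + T := by ring
  unfold cst LS.thr
  rw [e1, e2, e3, e4]
  omega

theorem cst_mono (Θ ρ : ℕ) : cst L 0 ρ ≤ cst L Θ ρ := by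
  have e3 : T * (c + θ + 0 + ρ + 1) = T * c + T * θ + T * ρ + T := by ring
  have e4 : T * (c + θ + Θ + ρ + 1) = T * c + T * θ + T * Θ + T * ρ + T := by ring
  unfold cst
  rw [e3, e4]
  omega

/-- a periodic broken line with bounded connectors -/
structure PL (C ρ F : ℕ) (i : L.ι) (cs : ℕ → G) (f : ℕ → ℤ) : Prop where
  nc : ∀ k, cs k ∉ Subgroup.zpowers (L.x i)
  len : ∀ k, H.len (cs k) ≤ ρ
  big : ∀ k, 2 * (C : ℤ) < |f k|
  up : ∀ k, |f k| ≤ F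
  pc : ∀ k, cs (k + 4) = cs k
  pf : ∀ k, f (k + 4) = f k

theorem ms_s_le (i : L.ι) (u p q : G) : |L.s i u p q| ≤ (T * (H.d p q + c) : ℕ) := by
  refine (L.rg_s_le i u p q).trans ?_
  exact_mod_cast Nat.mul_le_mul_left T (L.az_lip i u p q)

variable {L}

theorem PL.br {C ρ F : ℕ} {i : L.ι} {cs : ℕ → G} {f : ℕ → ℤ} (h : PL L C ρ F i cs f) :
    Br L i cs f (bv (L.x i) cs f) where
  v0 := rfl
  vs := fun _ => rfl
  nc := h.nc

theorem win (hG : GwinStmt) {Θ ρ F : ℕ} {i : L.ι} {cs : ℕ → G} {f : ℕ → ℤ}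
    (h : PL L (cst L Θ ρ) ρ F i cs f) (j : L.ι) (w : G) (N : ℕ) :
    |L.s j w 1 (bv (L.x i) cs f 4 ^ N)| ≤ F + cst L 0 ρ := by
  have h1 := (hG G H c θ T L i cs f (bv (L.x i) cs f) ρ F h.br h.len (fun k => by
    have h2 := h.big k
    have h3 : (cst L 0 ρ : ℤ) ≤ cst L Θ ρ := by exact_mod_cast cst_mono L Θ ρ
    have h4 : (0 : ℤ) ≤ cst L 0 ρ := by positivity
    omega) h.up).1 j w (4 * N)
  rw [bv_pow h.pc h.pf] at h1
  exact h1

theorem win0 (hG : GwinStmt) {Θ ρ F : ℕ} {i : L.ι} {cs : ℕ → G} {f : ℕ → ℤ}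
    (h : PL L (cst L Θ ρ) ρ F i cs f) {N : ℕ} (hN : 0 < N) :
    |L.s i (bv (L.x i) cs f 1) 1 (bv (L.x i) cs f 4 ^ N) - f 0| ≤ cst L 0 ρ := by
  have h1 := (hG G H c θ T L i cs f (bv (L.x i) cs f) ρ F h.br h.len (fun k => by
    have h2 := h.big k
    have h3 : (cst L 0 ρ : ℤ) ≤ cst L Θ ρ := by exact_mod_cast cst_mono L Θ ρ
    have h4 : (0 : ℤ) ≤ cst L 0 ρ := by positivity
    omega) h.up).2 (4 * N) (by omega)
  rw [bv_pow h.pc h.pf] at h1
  exact h1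

theorem eq_one_of {n : L.ι → ℕ} {M : Subgroup G} (hF : Fv L n M) {m : G} (hm : m ∈ M) (X : ℤ)
    (hw : ∀ (j : L.ι) (u : G), |L.s j u 1 m| ≤ X) (hn : ∀ j, X + 12 * (L.thr : ℤ) < n j) :
    m = 1 := by
  by_contra h
  obtain ⟨j, u, h1⟩ := hF.gr m hm h 1
  rw [mul_one] at h1
  have h2 := hw j u
  have h3 := hn j
  omega

/-- short elements are not powers of the word -/
theorem nsm (hG : GwinStmt) {n : L.ι → ℕ} {M : Subgroup G} (hF : Fv L n M) {Θ ρ F : ℕ}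
    (hn : ∀ i, 100 * (F + cst L Θ ρ) ≤ n i) {i : L.ι} {cs : ℕ → G} {f : ℕ → ℤ}
    (h : PL L (cst L Θ ρ) ρ F i cs f) {z : G} (hz : H.len z ≤ ρ) {N : ℕ} (hN : 0 < N)
    (hm : z⁻¹ * bv (L.x i) cs f 4 ^ N ∈ M) : False := by
  have c1 := cst_ge L Θ ρ
  have c2 := cst_mono L Θ ρ
  have hzs : ∀ (j : L.ι) (u : G), |L.s j u 1 z| ≤ (T * (ρ + c) : ℕ) := by
    intro j u
    refine (ms_s_le L j u 1 z).trans ?_
    rw [H.d_one]
    exact_mod_cast Nat.mul_le_mul_left T (by omega)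
  have hzi : ∀ (j : L.ι) (u : G), |L.s j u 1 z⁻¹| ≤ (T * (ρ + c) : ℕ) := by
    intro j u
    refine (ms_s_le L j u 1 z⁻¹).trans ?_
    rw [H.d_one, H.len_inv]
    exact_mod_cast Nat.mul_le_mul_left T (by omega)
  have h1 : z⁻¹ * bv (L.x i) cs f 4 ^ N = 1 := by
    refine eq_one_of hF hm ((T * (ρ + c) : ℕ) + (F + cst L 0 ρ)) ?_ ?_
    · intro j u
      have e := L.rg_s_add j u 1 z⁻¹ (z⁻¹ * bv (L.x i) cs f 4 ^ N)
      have e2 := L.rg_s_mul j u z⁻¹ 1 (bv (L.x i) cs f 4 ^ N)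
      rw [mul_one] at e2
      have h2 := hzi j u
      have h3 := win hG h j (z⁻¹⁻¹ * u) N
      rw [← e2] at h3
      rw [← e]
      exact (abs_add_le _ _).trans (by omega)
    · intro j
      have h2 := hn j
      have h3 : ((100 * (F + cst L Θ ρ) : ℕ) : ℤ) ≤ n j := by exact_mod_cast h2
      push_cast at h3 ⊢
      have c1' : (24 * (L.thr : ℤ) + T * (2 * c + 1) + T * Θ + T * (ρ + c) + 1) ≤ cst L Θ ρ := by
        exact_mod_cast c1
      have c2' : (cst L 0 ρ : ℤ) ≤ cst L Θ ρ := by exact_mod_cast c2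
      have p1 : (0 : ℤ) ≤ T * (2 * c + 1) := by positivity
      have p2 : (0 : ℤ) ≤ T * Θ := by positivity
      have p3 : (0 : ℤ) ≤ T * (ρ + c) := by positivity
      have p4 : (0 : ℤ) ≤ L.thr := by positivity
      have p5 : (0 : ℤ) ≤ F := by positivity
      linarith
  have h2 : bv (L.x i) cs f 4 ^ N = z := by
    have := inv_mul_eq_one.1 h1
    exact this.symm
  have h3 := win0 hG h hN
  rw [h2] at h3
  have h4 := hzs i (bv (L.x i) cs f 1)
  have h5 := h.big 0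
  have h6 : |f 0| ≤ cst L 0 ρ + (T * (ρ + c) : ℕ) := by
    have : f 0 = L.s i (bv (L.x i) cs f 1) 1 z - (L.s i (bv (L.x i) cs f 1) 1 z - f 0) := by ring
    rw [this]
    refine (abs_sub _ _).trans ?_
    omega
  have c1' : (24 * (L.thr : ℤ) + T * (2 * c + 1) + T * Θ + (T * (ρ + c) : ℕ) + 1) ≤
      cst L Θ ρ := by
    exact_mod_cast c1
  have c2' : (cst L 0 ρ : ℤ) ≤ cst L Θ ρ := by exact_mod_cast c2
  have p1 : (0 : ℤ) ≤ T * (2 * c + 1) := by positivity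
  have p2 : (0 : ℤ) ≤ T * Θ := by positivity
  have p4 : (0 : ℤ) ≤ L.thr := by positivity
  linarith

/-- the word has infinite order in the quotient -/
theorem tors (hG : GwinStmt) {n : L.ι → ℕ} {M : Subgroup G} [M.Normal] (hF : Fv L n M)
    {Θ ρ F : ℕ} (hn : ∀ i, 100 * (F + cst L Θ ρ) ≤ n i) {i : L.ι} {cs : ℕ → G} {f : ℕ → ℤ}
    (h : PL L (cst L Θ ρ) ρ F i cs f) :
    ¬ IsOfFinOrder ((bv (L.x i) cs f 4 : G) : G ⧸ M) := by
  intro hfin
  obtain ⟨N, hN, h1⟩ := isOfFinOrder_iff_pow_eq_one.1 hfin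
  rw [← QuotientGroup.mk_pow, QuotientGroup.eq_one_iff] at h1
  refine nsm hG hF hn h (z := 1) ?_ hN ?_
  · rw [H.len_one]; exact Nat.zero_le _
  · rwa [inv_one, one_mul]

/-- the match of two words which are conjugate in the quotient -/
theorem matching (hG : GwinStmt) (hMt : MatchStmt) (hR : RgenStmt) {n : L.ι → ℕ}
    {M : Subgroup G} [M.Normal] (hF : Fv L n M) {E : GH G} {Θ ρ F : ℕ} (hC : L.Cone E Θ)
    (hT : 1 ≤ T) (hn : ∀ i, 100 * (F + cst L Θ ρ) ≤ n i) {i i' : L.ι} {cs cs' : ℕ → G}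
    {f f' : ℕ → ℤ} (h : PL L (cst L Θ ρ) ρ F i cs f) (h' : PL L (cst L Θ ρ) ρ F i' cs' f')
    (q : G ⧸ M) (hq : q * (bv (L.x i) cs f 4 : G) * q⁻¹ = (bv (L.x i') cs' f' 4 : G)) :
    ∃ (g : G) (σ : ℤ) (k0 : ℕ), (g : G ⧸ M) = q ∧ ∀ k : ℕ, k0 ≤ k → k ≤ k0 + 8 →
      ∃ l : ℕ, (l : ℤ) = k + σ ∧ i = i' ∧ |f k - f' l| ≤ cst L Θ ρ ∧
        (bv (L.x i') cs' f' (l + 1))⁻¹ * (g * bv (L.x i) cs f (k + 1)) ∈
          Subgroup.zpowers (L.x i) := by
  obtain ⟨h0, rfl⟩ := QuotientGroup.mk_surjective q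
  have hmem : h0 * bv (L.x i) cs f 4 * h0⁻¹ * (bv (L.x i') cs' f' 4)⁻¹ ∈ M := by
    rw [← QuotientGroup.eq_one_iff, QuotientGroup.mk_mul, QuotientGroup.mk_mul,
      QuotientGroup.mk_mul, QuotientGroup.mk_inv, QuotientGroup.mk_inv, hq, mul_inv_cancel]
  have c1 := cst_ge L Θ ρ
  have c2 := cst_mono L Θ ρ
  have c2' : (cst L 0 ρ : ℤ) ≤ cst L Θ ρ := by exact_mod_cast c2
  obtain ⟨m, hm, h2, e1, e2, e3⟩ := hR G H c θ T L n M hF E Θ hC (F + cst L Θ ρ + 1)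
    (bv (L.x i) cs f 4) (bv (L.x i') cs' f' 4) h0 hT (by omega)
    (fun j => by
      have h3 := hn j
      omega)
    (fun N j u => by
      have h3 := win hG h j u N
      push_cast
      linarith)
    (fun N j u => by
      have h3 := win hG h' j u N
      push_cast
      linarith) hmem (10 * E.len h0 + 100)
  rw [← bv_pow h.pc h.pf, ← bv_pow h'.pc h'.pf] at e1
  have hb : ∀ k, (cst L Θ ρ : ℤ) < |f k| := fun k => by
    have h3 := h.big k
    have h4 : (0 : ℤ) ≤ cst L Θ ρ := by positivity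
    omega
  have hb' : ∀ k, (cst L Θ ρ : ℤ) < |f' k| := fun k => by
    have h3 := h'.big k
    have h4 : (0 : ℤ) ≤ cst L Θ ρ := by positivity
    omega
  obtain ⟨σ, hσ⟩ := hMt G H c θ T L E Θ hC hT i i' cs cs' f f' (bv (L.x i) cs f)
    (bv (L.x i') cs' f') ρ h.br h'.br h.len h'.len hb hb' (E.len h0)
    (4 * (10 * E.len h0 + 100)) (4 * (10 * E.len h0 + 100)) (m * h0) h2 e2 e3 e1
  refine ⟨m * h0, σ, 10 * E.len h0 + 100, ?_, ?_⟩
  · rw [QuotientGroup.mk_mul, (QuotientGroup.eq_one_iff m).2 hm, one_mul]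
  · intro k hk1 hk2
    obtain ⟨l, hl, -, h3, h4, h5⟩ := hσ k hk1 (by omega)
    exact ⟨l, hl, h3, h4, h5⟩

/-- malnormality of `⟨x i⟩` -/
theorem maln (i : L.ι) (g : G) (hg : g ∉ Subgroup.zpowers (L.x i)) (a b : ℤ)
    (h : L.x i ^ a * g = g * L.x i ^ b) : a = 0 := by
  refine L.rg_common (i1 := i) (i2 := i) (P1 := 1) (P2 := g) (k2 := b) ?_ ?_
  · intro _
    rwa [inv_one, one_mul]
  · unfold LS.rt
    rw [one_mul, inv_one, mul_one, ← h, mul_inv_cancel_right]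

/-- frames give periodic broken lines -/
theorem frPL {Θ ρ E1 B0 F r : ℕ} {δ : Fin r → ℕ} {μ : Fin r → ℕ → ℕ}
    (hμ : ∀ j l, (μ j l).Prime) (hper : ∀ j l, μ j (l + 4) = μ j l) (hB : cst L Θ ρ < B0)
    (hFl : ∀ j l, E1 * (B0 * μ j l) ≤ F) {j : Fin r} {i : L.ι} {e : ℤ} {α β : G}
    (hFr : Fr L ρ E1 i e (δ j) α β) :
    PL L (cst L Θ ρ) ρ F i (cs4 (δ j) α β) (fun l => e * (B0 * μ j l)) where
  nc := by
    intro k
    unfold cs4
    split_ifs
    · exact hFr.nad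
    · exact hFr.nb
    · intro h
      exact hFr.na (inv_mem_iff.1 h)
    · intro h
      exact hFr.nb (inv_mem_iff.1 h)
  len := by
    intro k
    unfold cs4
    split_ifs
    · exact hFr.lad
    · exact hFr.lb
    · rw [H.len_inv]; exact hFr.la
    · rw [H.len_inv]; exact hFr.lb
  big := by
    intro k
    have h1 : (1 : ℤ) ≤ |e| := Int.one_le_abs hFr.e0
    have h2 : (2 : ℤ) ≤ μ j k := by exact_mod_cast (hμ j k).two_le
    have h3 : (cst L Θ ρ : ℤ) < B0 := by exact_mod_cast hB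
    have h4 : (0 : ℤ) ≤ cst L Θ ρ := by positivity
    have h5 : |e * ((B0 : ℤ) * μ j k)| = |e| * ((B0 : ℤ) * μ j k) := by
      rw [abs_mul, abs_of_nonneg (a := (B0 : ℤ) * μ j k) (by positivity)]
    show 2 * (cst L Θ ρ : ℤ) < |e * ((B0 : ℤ) * μ j k)|
    rw [h5]
    have h6 : (B0 : ℤ) * 2 ≤ B0 * μ j k := mul_le_mul_of_nonneg_left h2 (by omega)
    have h7 : 1 * ((B0 : ℤ) * μ j k) ≤ |e| * (B0 * μ j k) :=
      mul_le_mul_of_nonneg_right h1 (by positivity)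
    linarith
  up := by
    intro k
    have h5 : |e * ((B0 : ℤ) * μ j k)| = |e| * ((B0 : ℤ) * μ j k) := by
      rw [abs_mul, abs_of_nonneg (a := (B0 : ℤ) * μ j k) (by positivity)]
    show |e * ((B0 : ℤ) * μ j k)| ≤ F
    rw [h5]
    have h6 : |e| * ((B0 : ℤ) * μ j k) ≤ E1 * (B0 * μ j k) :=
      mul_le_mul_of_nonneg_right hFr.e1 (by positivity)
    have h7 : ((E1 * (B0 * μ j k) : ℕ) : ℤ) ≤ F := by exact_mod_cast hFl j k
    push_cast at h7
    linarith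
  pc := by
    intro k
    unfold cs4
    rw [Nat.add_mod_right]
  pf := by
    intro k
    show e * ((B0 : ℤ) * μ j (k + 4)) = e * (B0 * μ j k)
    rw [hper]

theorem bv_wd (δ : ℕ) (f : ℕ → ℤ) (α β x : G) : bv x (cs4 δ α β) f 4 = wd δ f α β x := by
  simp [bv, cs4, wd]

/-- the connectors of the inverse word -/
def ci {G : Type} [Group G] (δ : ℕ) (α β : G) (k : ℕ) : G :=
  if k % 4 = 0 then β else if k % 4 = 1 then α else if k % 4 = 2 then β⁻¹ else (α ^ δ)⁻¹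

/-- the inverse word -/
theorem invPL {Θ ρ E1 B0 F r : ℕ} {δ : Fin r → ℕ} {μ : Fin r → ℕ → ℕ}
    (hμ : ∀ j l, (μ j l).Prime) (hper : ∀ j l, μ j (l + 4) = μ j l) (hB : cst L Θ ρ < B0)
    (hFl : ∀ j l, E1 * (B0 * μ j l) ≤ F) {j : Fin r} {i : L.ι} {e : ℤ} {α β : G}
    (hFr : Fr L ρ E1 i e (δ j) α β) :
    PL L (cst L Θ ρ) ρ F i (ci (δ j) α β) (fun l => -(e * (B0 * μ j (3 * l + 2)))) where
  nc := by
    intro k
    unfold ci
    split_ifs
    · exact hFr.nb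
    · exact hFr.na
    · intro h
      exact hFr.nb (inv_mem_iff.1 h)
    · intro h
      exact hFr.nad (inv_mem_iff.1 h)
  len := by
    intro k
    unfold ci
    split_ifs
    · exact hFr.lb
    · exact hFr.la
    · rw [H.len_inv]; exact hFr.lb
    · rw [H.len_inv]; exact hFr.lad
  big := by
    intro k
    have h := (frPL hμ hper hB hFl hFr).big (3 * k + 2)
    show _ < |-(e * ((B0 : ℤ) * μ j (3 * k + 2)))|
    rw [abs_neg]
    exact h
  up := by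
    intro k
    have h := (frPL hμ hper hB hFl hFr).up (3 * k + 2)
    show |-(e * ((B0 : ℤ) * μ j (3 * k + 2)))| ≤ _
    rw [abs_neg]
    exact h
  pc := by
    intro k
    unfold ci
    rw [Nat.add_mod_right]
  pf := by
    intro k
    show -(e * ((B0 : ℤ) * μ j (3 * (k + 4) + 2))) = -(e * (B0 * μ j (3 * k + 2)))
    rw [show 3 * (k + 4) + 2 = 3 * k + 2 + 4 + 4 + 4 by ring, hper, hper, hper]

theorem bv_ci (δ : ℕ) (e : ℤ) (B0 : ℕ) (μ : ℕ → ℕ) (hper : ∀ l, μ (l + 4) = μ l) (α β x : G) :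
    bv x (ci δ α β) (fun l => -(e * (B0 * μ (3 * l + 2)))) 4 =
      x ^ (e * ((B0 : ℤ) * μ 3)) * (wd δ (fun l => e * (B0 * μ l)) α β x)⁻¹ *
        (x ^ (e * ((B0 : ℤ) * μ 3)))⁻¹ := by
  have h5 : μ 5 = μ 1 := hper 1
  have h8 : μ 8 = μ 0 := (hper 4).trans (hper 0)
  have h11 : μ 11 = μ 3 := (hper 7).trans (hper 3)
  simp only [bv, ci, wd]
  norm_num
  rw [h5, h8, h11]
  group

/-- the core: conjugate words are conjugate by the obvious elements -/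
theorem core (hG : GwinStmt) (hMt : MatchStmt) (hR : RgenStmt) (hGa : Gauge4Stmt)
    (hP : PatStmt) {n : L.ι → ℕ} {M : Subgroup G} [M.Normal] (hF : Fv L n M) {E : GH G}
    {Θ ρ : ℕ} (hC : L.Cone E Θ) (hT : 1 ≤ T) (hpr : ∀ i, Prim (L.x i)) {r : ℕ}
    {δ : Fin r → ℕ} {μ : Fin r → ℕ → ℕ} (hδ : ∀ j, δ j = 1 ∨ δ j = 2)
    (hμ : ∀ j l, (μ j l).Prime) (hper : ∀ j l, μ j (l + 4) = μ j l)
    (hinj : ∀ j j' l l', l < 4 → l' < 4 → μ j l = μ j' l' → j = j' ∧ l = l')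
    {E1 B0 F : ℕ} (hB : cst L Θ ρ < B0) (hFl : ∀ j l, E1 * (B0 * μ j l) ≤ F)
    (hn : ∀ i, 100 * (F + cst L Θ ρ) ≤ n i) {j j' : Fin r} {i i' : L.ι} {e e' : ℤ}
    {α β α' β' : G} (hFr : Fr L ρ E1 i e (δ j) α β) (hFr' : Fr L ρ E1 i' e' (δ j') α' β')
    (q : G ⧸ M)
    (hq : q * (wd (δ j) (fun l => e * (B0 * μ j l)) α β (L.x i) : G) * q⁻¹ =
        (wd (δ j') (fun l => e' * (B0 * μ j' l)) α' β' (L.x i') : G)) :
    ∃ s t : ℤ, j = j' ∧ α' = L.x i ^ s * α * L.x i ^ (-s) ∧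
      β' = L.x i ^ s * β * L.x i ^ (-s) ∧
      q = ((L.x i ^ s * (wd (δ j) (fun l => e * (B0 * μ j l)) α β (L.x i)) ^ t : G) : G ⧸ M) := by
  have h := frPL (Θ := Θ) hμ hper hB hFl hFr
  have h' := frPL (Θ := Θ) hμ hper hB hFl hFr'
  obtain ⟨g, σ, k0, hg, hk⟩ := matching hG hMt hR hF hC hT hn h h' q (by
    rw [bv_wd, bv_wd]; exact hq)
  obtain ⟨l0, hl0, rfl, -, -⟩ := hk k0 le_rfl (by omega)
  obtain ⟨rfl, rfl, h4⟩ := (hP r μ hμ hper hinj B0 (cst L Θ ρ) hB e e' hFr.e0 hFr'.e0 j j' k0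
    σ).1 (fun k hk1 hk2 => by
      obtain ⟨l, h1, -, h2, -⟩ := hk k hk1 hk2
      exact ⟨l, h1, h2⟩)
  obtain ⟨s, t, h1, h2, h3⟩ := hGa G (L.x i) (hpr i).1 (fun g hg a b => maln i g hg a b)
    α β α' β' (δ j) (hδ j) hFr.na hFr.nad hFr.nb (fun l => e * (B0 * μ j l)) h.pf
    (bv (L.x i) (cs4 (δ j) α β) (fun l => e * (B0 * μ j l)))
    (bv (L.x i) (cs4 (δ j) α' β') (fun l => e * (B0 * μ j l))) rfl rfl (fun _ => rfl)
    (fun _ => rfl) g k0 l0 (by omega) (fun s hs => by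
      obtain ⟨l, h1, -, -, h2⟩ := hk (k0 + s) (by omega) (by omega)
      have h3 : l = l0 + s := by push_cast at h1; omega
      rwa [h3] at h2)
  refine ⟨s, t, rfl, h1, h2, ?_⟩
  rw [← hg, h3, bv_wd]

end

theorem rig (hG : GwinStmt) (hMt : MatchStmt) (hR : RgenStmt) (hGa : Gauge4Stmt)
    (hP : PatStmt) : RigStmt := by
  intro G _ H c θ T L n M _ hF E Θ hC hT hpr r δ μ hδ hμ hper hinj ρ E1 B0 F hB hFl hn j i e α β
    hFr
  have h := frPL (Θ := Θ) hμ hper hB hFl hFr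
  refine ⟨?_, ?_, ?_, ?_⟩
  · have h1 := tors hG hF hn h
    rwa [bv_wd] at h1
  · intro q hq
    obtain ⟨s, t, -, h1, -, h3⟩ := core hG hMt hR hGa hP hF hC hT hpr hδ hμ hper hinj hB hFl hn
      hFr hFr q (by rw [hq, mul_inv_cancel_right])
    have hs : s = 0 := by
      refine maln i α hFr.na s s ?_
      conv_rhs => rw [h1]
      group
    refine ⟨t, ?_⟩
    rw [h3, hs, zpow_zero, one_mul, QuotientGroup.mk_zpow]
  · have key : ∀ (z : G) (N : ℕ), H.len z ≤ ρ → 0 < N → (z : G ⧸ M) ≠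
        ((wd (δ j) (fun l => e * (B0 * μ j l)) α β (L.x i) : G) : G ⧸ M) ^ N := by
      intro z N hz hN h1
      rw [← bv_wd, ← QuotientGroup.mk_pow] at h1
      exact nsm hG hF hn h hz hN (QuotientGroup.eq.1 h1)
    intro z t hz ht h1
    rcases lt_or_gt_of_ne ht with h2 | h2
    · refine key z⁻¹ t.natAbs ?_ (by omega) ?_
      · rw [H.len_inv]; exact hz
      · rw [QuotientGroup.mk_inv, h1, ← zpow_natCast, ← zpow_neg]
        congr 1
        omega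
    · refine key z t.natAbs hz (by omega) ?_
      rw [h1, ← zpow_natCast]
      congr 1
      omega
  · intro j' i' e' α' β' hFr' q
    refine ⟨?_, ?_⟩
    · intro hq
      obtain ⟨s, t, h0, h1, h2, -⟩ := core hG hMt hR hGa hP hF hC hT hpr hδ hμ hper hinj hB hFl
        hn hFr hFr' q hq
      refine ⟨h0, L.x i ^ s, ?_, ?_⟩
      · rw [h1, zpow_neg]
      · rw [h2, zpow_neg]
    · intro hq
      have h' := invPL (Θ := Θ) hμ hper hB hFl hFr'
      obtain ⟨g, σ, k0, hg, hk⟩ := matching hG hMt hR hF hC hT hn h h'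
        (((L.x i' ^ (e' * ((B0 : ℤ) * μ j' 3)) : G) : G ⧸ M) * q) (by
          rw [bv_wd, bv_ci (δ j') e' B0 (μ j') (hper j'), QuotientGroup.mk_mul,
            QuotientGroup.mk_mul, QuotientGroup.mk_inv, QuotientGroup.mk_inv, ← hq]
          simp only [mul_inv_rev, mul_assoc])
      refine (hP r μ hμ hper hinj B0 (cst L Θ ρ) hB e e' hFr.e0 hFr'.e0 j j' k0 σ).2 ?_
      intro k hk1 hk2
      obtain ⟨l, h1, -, h2, -⟩ := hk k hk1 hk2
      refine ⟨l, h1, ?_⟩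
      rwa [sub_neg_eq_add] at h2

end Pool.Agent.Y614.MON
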